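set_option autoImplicit false

namespace Pool.Agent.H.MP_ffae75_co

def f (b : Nat) : Nat := Nat.pow (nat_lit 1048576) (Nat.sub b (Nat.add (Nat.add (Nat.add (Nat.add
  (Nat.div (Nat.mul (nat_lit 13) b) (nat_lit 537824))
  (Nat.div (Nat.mul (nat_lit 182) b) (nat_lit 537824)))
  (Nat.div (Nat.mul (nat_lit 2548) b) (nat_lit 537824)))
  (Nat.div (Nat.mul (nat_lit 35672) b) (nat_lit 537824)))
  (Nat.div (Nat.mul (nat_lit 499408) b) (nat_lit 537824))))

noncomputable def loop (lo n : Nat) : Nat :=
  Nat.rec (motive := fun _ => Nat) (nat_lit 0) (fun i acc => Nat.add acc (f (Nat.add lo i))) n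

noncomputable def outer (n : Nat) : Nat :=
  Nat.rec (motive := fun _ => Nat) (nat_lit 0)
    (fun j acc => Nat.add acc (loop (Nat.mul (nat_lit 196) j) (nat_lit 196))) n

theorem val : outer 2744 = 7844360309942989297961950168219649 := by decide +kernel

end Pool.Agent.H.MP_ffae75_co
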