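import Mathlib
import Pool.Agent.H.MP_ffae75_co.K

set_option autoImplicit false

namespace Pool.Agent.H.MP_ffae75_co

open Finset Pointwise

def simplex {d : ℕ} (q : Fin d → ℝ) : Set (Fin d → ℝ) :=
  convexHull ℝ (insert (-q) (Set.range fun k => Pi.single k (1 : ℝ)))

theorem mem_simplex {d : ℕ} (q : Fin d → ℝ) (hq : ∀ k, 0 ≤ q k) (v : Fin d → ℝ) :
    v ∈ simplex q ↔ 0 ≤ 1 - ∑ k, v k ∧ ∀ k, 0 ≤ (1 + ∑ j, q j) * v k + (1 - ∑ j, v j) * q k := by
  have hN : 0 < 1 + ∑ j, q j := add_pos_of_pos_of_nonneg one_pos (sum_nonneg fun j _ => hq j)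
  constructor
  · intro h
    refine convexHull_min (t := {v | 0 ≤ 1 - ∑ k, v k ∧
      ∀ k, 0 ≤ (1 + ∑ j, q j) * v k + (1 - ∑ j, v j) * q k}) ?_ ?_ h
    · rintro _ (rfl | ⟨k, rfl⟩)
      · simp only [Set.mem_ofPred_eq, Pi.neg_apply, sum_neg_distrib]
        exact ⟨by linarith, fun k => le_of_eq (by ring)⟩
      · simp only [Set.mem_ofPred_eq, sum_pi_single', mem_univ, if_true, sub_self, zero_mul,
          add_zero, le_refl, true_and]
        intro j
        refine mul_nonneg hN.le ?_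
        rw [Pi.single_apply]
        split_ifs <;> norm_num
    · rintro x ⟨x1, x2⟩ y ⟨y1, y2⟩ a b ha hb hab
      simp only [Set.mem_ofPred_eq, Pi.add_apply, Pi.smul_apply, smul_eq_mul, sum_add_distrib,
        ← mul_sum]
      obtain rfl : b = 1 - a := by linarith
      exact ⟨by nlinarith [mul_nonneg ha x1, mul_nonneg hb y1],
        fun k => by nlinarith [mul_nonneg ha (x2 k), mul_nonneg hb (y2 k)]⟩
  · rintro ⟨h1, h2⟩
    set N := 1 + ∑ j, q j with hNd
    set m := 1 - ∑ j, v j with hm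
    have := (convex_convexHull ℝ (insert (-q) (Set.range fun k => Pi.single k (1 : ℝ)))).sum_mem
      (t := univ) (w := fun o : Option (Fin d) => o.elim (m / N) fun k => (N * v k + m * q k) / N)
      (z := fun o => o.elim (-q) fun k => Pi.single k 1)
      (by rintro (_ | k) -
          · exact div_nonneg h1 hN.le
          · exact div_nonneg (h2 k) hN.le)
      (by simp only [Fintype.sum_option, Option.elim, ← sum_div, sum_add_distrib, ← mul_sum]
          have : ∑ j, q j = N - 1 := by linarith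
          have h' : ∑ j, v j = 1 - m := by linarith
          rw [this, h']
          field_simp
          ring)
      (by rintro (_ | k) -
          · exact subset_convexHull ℝ _ (Or.inl rfl)
          · exact subset_convexHull ℝ _ (Or.inr ⟨k, rfl⟩))
    have e : v = ∑ o : Option (Fin d), (o.elim (m / N) fun k => (N * v k + m * q k) / N) •
        (o.elim (-q) fun k => Pi.single k (1 : ℝ) : Fin d → ℝ) := by
      funext k
      simp only [Fintype.sum_option, Option.elim, Pi.smul_apply, Pi.neg_apply,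
        Finset.sum_apply, smul_eq_mul, Pi.single_apply, mul_ite, mul_one, mul_zero, sum_ite_eq,
        mem_univ, if_true]
      field_simp
      ring
    rw [e]
    exact this

theorem mem_smul {d : ℕ} (q : Fin d → ℝ) (hq : ∀ k, 0 ≤ q k) (t : ℝ) (ht : 0 ≤ t)
    (v : Fin d → ℝ) : v ∈ t • simplex q ↔
      0 ≤ t - ∑ k, v k ∧ ∀ k, 0 ≤ (1 + ∑ j, q j) * v k + (t - ∑ j, v j) * q k := by
  have hN : 0 < 1 + ∑ j, q j := add_pos_of_pos_of_nonneg one_pos (sum_nonneg fun j _ => hq j)
  rcases ht.eq_or_lt with rfl | ht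
  · have hne : (simplex q).Nonempty := ⟨-q, subset_convexHull ℝ _ (Set.mem_insert _ _)⟩
    rw [Set.zero_smul_set hne, Set.mem_zero]
    constructor
    · rintro rfl
      simp
    · rintro ⟨h1, h2⟩
      have h3 := sum_nonneg fun k (_ : k ∈ univ) => h2 k
      simp only [sum_add_distrib, ← mul_sum] at h3
      have h4 : ∑ k, v k = 0 := by nlinarith
      simp only [h4, sub_self, zero_mul, add_zero] at h2
      funext k
      exact (sum_eq_zero_iff_of_nonneg fun k _ => (mul_nonneg_iff_of_pos_left hN).1 (h2 k)).1 h4 k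
        (mem_univ k)
  · rw [Set.mem_smul_set_iff_inv_smul_mem₀ ht.ne', mem_simplex q hq]
    simp only [Pi.smul_apply, smul_eq_mul, ← mul_sum]
    have e : ∀ x : ℝ, 0 ≤ t⁻¹ * x ↔ 0 ≤ x := fun x => mul_nonneg_iff_of_pos_left (inv_pos.2 ht)
    rw [← e (t - _)]
    refine and_congr (by rw [mul_sub, inv_mul_cancel₀ ht.ne']) (forall_congr' fun k => ?_)
    rw [← e ((1 + ∑ j, q j) * v k + _)]
    have : (1 + ∑ j, q j) * (t⁻¹ * v k) + (1 - t⁻¹ * ∑ j, v j) * q k =
        t⁻¹ * ((1 + ∑ j, q j) * v k + (t - ∑ j, v j) * q k) := by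
      field_simp
    rw [this]

def om {d : ℕ} (q : Fin d → ℕ) (b : ℕ) : ℕ := b - ∑ k, q k * b / (1 + ∑ j, q j)

theorem om_le {d : ℕ} (q : Fin d → ℕ) (b : ℕ) : ∑ k, q k * b / (1 + ∑ j, q j) ≤ b := by
  refine Nat.le_of_mul_le_mul_left (c := 1 + ∑ j, q j) ?_ (by omega)
  rw [mul_sum]
  refine (sum_le_sum fun k _ => Nat.mul_div_le _ _).trans ?_
  rw [← sum_mul]
  exact Nat.mul_le_mul_right _ (by omega)

theorem card_pi (d n : ℕ) : #(piAntidiag (univ : Finset (Option (Fin d))) n) = (n + d).choose d := by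
  have := card_finsuppAntidiag_nat_eq_choose (s := (univ : Finset (Option (Fin d)))) n
  rw [finsuppAntidiag, card_map, card_attach] at this
  rw [this, card_univ, Fintype.card_option, Fintype.card_fin,
    show d + 1 + n - 1 = n + d by omega, Nat.choose_symm_add]

theorem count {d : ℕ} (q : Fin d → ℕ) (t : ℕ) :
    {x : Fin d → ℤ | 0 ≤ t - ∑ k, x k ∧
      ∀ k, 0 ≤ (1 + ∑ j, (q j : ℤ)) * x k + (t - ∑ j, x j) * q k}.ncard =
    ∑ b ∈ range (1 + ∑ j, q j), if om q b ≤ t then (t - om q b + d).choose d else 0 := by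
  classical
  have hle := om_le q
  have hom : ∀ b, (om q b : ℤ) = b - ∑ k, ((q k * b / (1 + ∑ j, q j) : ℕ) : ℤ) := fun b => by
    rw [om, Nat.cast_sub (hle b), Nat.cast_sum]
  have hc : (1 + ∑ j, (q j : ℤ)) = ((1 + ∑ j, q j : ℕ) : ℤ) := by push_cast; rfl
  have hs : ∑ j, (q j : ℤ) = ((1 + ∑ j, q j : ℕ) : ℤ) - 1 := by push_cast; ring
  have hN : 0 < 1 + ∑ j, q j := by omega
  rw [hc]
  generalize 1 + ∑ j, q j = N at *
  let T := (range N).sigma fun b =>
    if om q b ≤ t then piAntidiag (univ : Finset (Option (Fin d))) (t - om q b) else ∅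
  have hT : ∀ p : (_ : ℕ) × (Option (Fin d) → ℕ), p ∈ T ↔
      p.1 < N ∧ (p.2 none : ℤ) + ∑ k, (p.2 (some k) : ℤ) + om q p.1 = t := by
    rintro ⟨b, y⟩
    simp only [T, mem_sigma, mem_range]
    refine and_congr_right fun _ => ?_
    rw [← Nat.cast_sum, ← Nat.cast_add, ← Nat.cast_add, Nat.cast_inj]
    split_ifs with h
    · simp only [mem_piAntidiag, mem_univ, implies_true, and_true, Fintype.sum_option]
      omega
    · simp only [notMem_empty, false_iff]
      omega
  let φ : (_ : ℕ) × (Option (Fin d) → ℕ) → Fin d → ℤ := fun p k =>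
    p.2 (some k) - ((q k * p.1 / N : ℕ) : ℤ) - q k * p.2 none
  have hφ : ∀ p ∈ T, t - ∑ k, φ p k = p.2 none * N + p.1 := fun p hp => by
    have := ((hT p).1 hp).2
    simp only [φ, sum_sub_distrib, ← sum_mul, hs]
    rw [hom] at this
    linarith
  have hdm : ∀ k b, (N : ℤ) * ((q k * b / N : ℕ) : ℤ) + ((q k * b % N : ℕ) : ℤ) = q k * b :=
    fun k b => by exact_mod_cast Nat.div_add_mod (q k * b) N
  have key : {x : Fin d → ℤ | 0 ≤ t - ∑ k, x k ∧ ∀ k, 0 ≤ (N : ℤ) * x k + (t - ∑ j, x j) * q k} =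
      φ '' (T : Set _) := by
    ext x
    constructor
    · rintro ⟨h1, h2⟩
      obtain ⟨m, hm⟩ := Int.eq_ofNat_of_zero_le h1
      have hm2 : (m : ℤ) = N * (m / N : ℕ) + (m % N : ℕ) := by
        exact_mod_cast (Nat.div_add_mod m N).symm
      have hy : ∀ k, 0 ≤ x k + ((q k * (m % N) / N : ℕ) : ℤ) + q k * (m / N : ℕ) := fun k => by
        have a1 := h2 k
        have a2 := hdm k (m % N)
        have a3 : ((q k * (m % N) % N : ℕ) : ℤ) < N := by exact_mod_cast Nat.mod_lt _ hN
        rw [hm, hm2] at a1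
        have a4 : (0 : ℤ) < N := by exact_mod_cast hN
        by_contra hc
        nlinarith
      refine ⟨⟨m % N, fun o => o.elim (m / N) fun k =>
        (x k + ((q k * (m % N) / N : ℕ) : ℤ) + q k * (m / N : ℕ)).toNat⟩, ?_, ?_⟩
      · refine (hT _).2 ⟨Nat.mod_lt _ hN, ?_⟩
        simp only [Option.elim, Int.toNat_of_nonneg (hy _), sum_add_distrib, ← sum_mul, hs, hom]
        linarith
      · funext k
        simp only [φ, Option.elim, Int.toNat_of_nonneg (hy _)]
        ring
    · rintro ⟨p, hp, rfl⟩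
      refine ⟨by rw [hφ p hp]; positivity, fun k => ?_⟩
      rw [hφ p hp]
      have a2 := hdm k p.1
      have : (0 : ℤ) ≤ N * p.2 (some k) + ((q k * p.1 % N : ℕ) : ℤ) := by positivity
      simp only [φ]
      linarith
  rw [key, Set.InjOn.ncard_image, Set.ncard_coe_finset, card_sigma]
  · refine sum_congr rfl fun b _ => ?_
    split_ifs
    · exact card_pi _ _
    · rfl
  · rintro ⟨b, y⟩ hp ⟨b', y'⟩ hp' e
    have a1 := hφ _ hp
    have a2 := hφ _ hp'
    rw [e, a2] at a1
    have a3 : y' none * N + b' = y none * N + b := by exact_mod_cast a1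
    have l1 : b < N := ((hT _).1 hp).1
    have l2 : b' < N := ((hT _).1 hp').1
    have a4 := congrArg (· % N) a3
    simp only [Nat.mul_add_mod_self_right, Nat.mod_eq_of_lt l1, Nat.mod_eq_of_lt l2] at a4
    subst a4
    have a5 : y' none = y none := Nat.eq_of_mul_eq_mul_right hN (by omega)
    have : y = y' := by
      funext o
      rcases o with _ | k
      · exact a5.symm
      · have := congrFun e k
        simp only [φ, a5] at this
        have h : (y (some k) : ℤ) = y' (some k) := by linarith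
        exact_mod_cast h
    rw [this]

def q0 : Fin 5 → ℕ := ![13, 182, 2548, 35672, 499408]

theorem q0s : 1 + ∑ j, q0 j = 537824 := by decide +kernel

theorem om0 (b : ℕ) : om q0 b = b - (13 * b / 537824 + 182 * b / 537824 + 2548 * b / 537824 +
    35672 * b / 537824 + 499408 * b / 537824) := by
  rw [om, q0s, Fin.sum_univ_five]
  rfl

theorem loop_eq (lo n : ℕ) : loop lo n = ∑ i ∈ range n, f (lo + i) := by
  induction n with
  | zero => rfl
  | succ n ih => rw [sum_range_succ, ← ih]; rfl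

theorem outer_eq (n : ℕ) : outer n = ∑ b ∈ range (196 * n), f b := by
  induction n with
  | zero => rfl
  | succ n ih => rw [Nat.mul_succ, sum_range_add, ← ih, ← loop_eq]; rfl

theorem fib (g : ℕ → ℕ) : ∑ b ∈ range 537824, g (om q0 b) =
    ∑ i ∈ range 6, #{b ∈ range 537824 | om q0 b = i} * g i := by
  rw [← sum_fiberwise_of_maps_to (s := range 537824) (t := range 6) (g := om q0)]
  · refine sum_congr rfl fun i _ => ?_
    rw [sum_congr rfl fun b hb => congrArg g (mem_filter.1 hb).2, sum_const, smul_eq_mul]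
  · intro b hb
    rw [mem_range] at *
    rw [om0]
    omega

theorem hvec (g : ℕ → ℕ) : ∑ b ∈ range 537824, g (om q0 b) =
    g 0 + 8567 * g 1 + 130403 * g 2 + 278187 * g 3 + 114478 * g 4 + 6188 * g 5 := by
  have h := fib fun i => 1048576 ^ i
  have e : ∑ b ∈ range 537824, 1048576 ^ om q0 b = 7844360309942989297961950168219649 := by
    rw [← val, outer_eq]
    exact sum_congr rfl fun b _ => by rw [om0]; rfl
  have l : ∀ i, #{b ∈ range 537824 | om q0 b = i} ≤ 537824 := fun i =>
    (card_filter_le _ _).trans (card_range _).le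
  rw [fib]
  rw [e] at h
  obtain ⟨c, hc⟩ : ∃ c : ℕ → ℕ, ∀ i, #{b ∈ range 537824 | om q0 b = i} = c i := ⟨_, fun _ => rfl⟩
  simp only [hc] at l h ⊢
  simp only [sum_range_succ, sum_range_zero] at h ⊢
  norm_num at h
  have := l 0; have := l 1; have := l 2; have := l 3; have := l 4; have := l 5
  have h0 : c 0 = 1 := by omega
  have h1 : c 1 = 8567 := by omega
  have h2 : c 2 = 130403 := by omega
  have h3 : c 3 = 278187 := by omega
  have h4 : c 4 = 114478 := by omega
  have h5 : c 5 = 6188 := by omega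
  rw [h0, h1, h2, h3, h4, h5]
  omega

theorem ch5 (t i : ℕ) (hi : i ≤ 5) :
    (((if i ≤ t then (t - i + 5).choose 5 else 0 : ℕ)) : ℚ) =
      (t - i + 5) * (t - i + 4) * (t - i + 3) * (t - i + 2) * (t - i + 1) / 120 := by
  split_ifs with h
  · obtain ⟨s, rfl⟩ := Nat.exists_eq_add_of_le h
    rw [Nat.add_sub_cancel_left, Nat.cast_choose_eq_descPochhammer_div]
    simp [descPochhammer_succ_eval, Nat.factorial]
    ring
  · have : t < 5 := by omega
    interval_cases t <;> interval_cases i <;> first | omega | norm_num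

theorem total (t : ℕ) :
    ({x : Fin 5 → ℤ | (fun k => (x k : ℝ)) ∈ (t : ℝ) • simplex fun k => (q0 k : ℝ)}.ncard : ℚ) =
      (120 - 2144 * t + 39550 * t ^ 2 + 349980 * t ^ 3 + 103430 * t ^ 4 + 537824 * t ^ 5) / 120 := by
  have e : {x : Fin 5 → ℤ | (fun k => (x k : ℝ)) ∈ (t : ℝ) • simplex fun k => (q0 k : ℝ)} =
      {x : Fin 5 → ℤ | 0 ≤ t - ∑ k, x k ∧
        ∀ k, 0 ≤ (1 + ∑ j, (q0 j : ℤ)) * x k + (t - ∑ j, x j) * q0 k} := by
    ext x
    rw [Set.mem_ofPred_eq, mem_smul _ (fun _ => Nat.cast_nonneg _) _ (Nat.cast_nonneg _),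
      Set.mem_ofPred_eq]
    exact and_congr (by norm_cast) (forall_congr' fun k => by norm_cast)
  rw [e, count, q0s, hvec fun i => if i ≤ t then (t - i + 5).choose 5 else 0]
  simp only [Nat.cast_add, Nat.cast_mul]
  rw [ch5 t 0 (by norm_num), ch5 t 1 (by norm_num), ch5 t 2 (by norm_num), ch5 t 3 (by norm_num),
    ch5 t 4 (by norm_num), ch5 t 5 (by norm_num)]
  push_cast
  ring

end Pool.Agent.H.MP_ffae75_co
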